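import Pool.Agent.W58.GU.Stm

/-!
Project GU: absorbing finitely many coordinates into `c_0`.
-/

set_option autoImplicit false

namespace Pool.Agent.W494.GU
open Finset Filter Topology Pool.Agent.W58.GU

variable {P : Par} {X : Type} [NormedAddCommGroup X] [NormedSpace ℝ X] (M : Model P X)

/-- each coordinate is bounded by the norm -/
theorem coordB (i : ℕ ⊕ ℕ) (x : X) : |M.e' i x| ≤ ‖x‖ := by
  rcases i with n | a
  · exact M.n1 x n
  · have h := M.n2 x _ (InK.single P a)
    rw [pr_single] at h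
    simpa using h

/-- the coordinates tend to zero -/
theorem coord0 (x : X) : Tendsto (fun i => M.e' i x) cofinite (𝓝 0) := by
  have h1 := (M.hs x).summable.tendsto_cofinite_zero
  rw [tendsto_zero_iff_norm_tendsto_zero] at h1 ⊢
  refine squeeze_zero (fun i => norm_nonneg _) (fun i => ?_) h1
  have h2 := coordB M i (M.e' i x • M.e i)
  rw [map_smul, M.bi, if_pos rfl, smul_eq_mul, mul_one] at h2
  exact h2

/-- vectors of `c_0` exist -/
theorem vec [CompleteSpace X] (c : ℕ → ℝ) (hc : Tendsto c cofinite (𝓝 0)) (C : ℝ) (hC : 0 ≤ C)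
    (hb : ∀ n, |c n| ≤ C) : ∃ v : X, (∀ n, M.e' (Sum.inl n) v = c n) ∧
      (∀ a, M.e' (Sum.inr a) v = 0) ∧ ‖v‖ ≤ C := by
  classical
  have hco : ∀ (t : Finset ℕ) (m : ℕ), M.e' (Sum.inl m) (∑ n ∈ t, c n • M.e (Sum.inl n)) =
      if m ∈ t then c m else 0 := by
    intro t m
    rw [map_sum]
    simp only [map_smul, M.bi, smul_eq_mul, Sum.inl.injEq, mul_ite, mul_one, mul_zero]
    rw [Finset.sum_ite_eq]
  have hco' : ∀ (t : Finset ℕ) (a : ℕ), M.e' (Sum.inr a) (∑ n ∈ t, c n • M.e (Sum.inl n)) = 0 := by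
    intro t a
    rw [map_sum]
    simp [M.bi]
  have hsum : Summable (fun n => c n • M.e (Sum.inl n)) := by
    rw [summable_iff_vanishing_norm]
    intro ε hε
    have hfin : {n | ¬ |c n| < ε / 2}.Finite := by
      have h1 := (Metric.tendsto_nhds.1 hc) (ε / 2) (by positivity)
      rw [Filter.eventually_cofinite] at h1
      simpa [Real.dist_eq] using h1
    refine ⟨hfin.toFinset, fun t ht => ?_⟩
    have h2 : ‖∑ n ∈ t, c n • M.e (Sum.inl n)‖ ≤ ε / 2 := by
      refine M.n3 _ _ (by positivity) (fun m => ?_) (fun f hf => ?_)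
      · rw [hco]
        split_ifs with hm
        · by_contra hlt
          have h3 : m ∈ hfin.toFinset := by
            rw [Set.Finite.mem_toFinset]
            exact fun h => hlt h.le
          exact (Finset.disjoint_left.1 ht hm) h3
        · simp; positivity
      · rw [pr_eq_zero (fun a _ => hco' t a)]
        simp; positivity
    linarith
  obtain ⟨v, hv⟩ := hsum
  have h1 : ∀ n, M.e' (Sum.inl n) v = c n := by
    intro n
    have h2 := hv.mapL (M.e' (Sum.inl n))
    have h3 : HasSum (fun m => M.e' (Sum.inl n) (c m • M.e (Sum.inl m))) (c n) := by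
      have h4 := hasSum_single (f := fun m => M.e' (Sum.inl n) (c m • M.e (Sum.inl m))) n
        (fun m hm => by
          simp only [map_smul, M.bi, smul_eq_mul, Sum.inl.injEq]
          rw [if_neg hm.symm, mul_zero])
      have h5 : M.e' (Sum.inl n) (c n • M.e (Sum.inl n)) = c n := by
        rw [map_smul, M.bi, if_pos rfl, smul_eq_mul, mul_one]
      rw [h5] at h4
      exact h4
    exact h2.unique h3
  have h1' : ∀ a, M.e' (Sum.inr a) v = 0 := by
    intro a
    have h2 := hv.mapL (M.e' (Sum.inr a))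
    have h3 : HasSum (fun m => M.e' (Sum.inr a) (c m • M.e (Sum.inl m))) 0 := by
      have h4 : (fun m => M.e' (Sum.inr a) (c m • M.e (Sum.inl m))) = fun _ => (0 : ℝ) := by
        funext m
        rw [map_smul, M.bi]; simp
      rw [h4]; exact hasSum_zero
    exact h2.unique h3
  refine ⟨v, h1, h1', M.n3 _ _ hC (fun n => by rw [h1]; exact hb n) (fun f hf => ?_)⟩
  rw [pr_eq_zero (fun a _ => h1' a)]
  simpa using hC

/-- operators into `c_0` -/
theorem opc [CompleteSpace X] (l : ℕ → (X →L[ℝ] ℝ))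
    (h0 : ∀ x, Tendsto (fun k => l k x) cofinite (𝓝 0)) (hb : ∀ k x, |l k x| ≤ ‖x‖) :
    ∃ F : X →L[ℝ] X, (∀ k x, M.e' (Sum.inl k) (F x) = l k x) ∧
      (∀ a x, M.e' (Sum.inr a) (F x) = 0) := by
  choose F hF1 hF2 hF3 using fun x : X => vec M (fun k => l k x) (h0 x) ‖x‖ (norm_nonneg x)
    (fun n => hb n x)
  let L : X →ₗ[ℝ] X :=
    { toFun := F
      map_add' := fun x y => by
        refine M.ext (fun i => ?_)
        rcases i with n | a
        · rw [map_add, hF1, hF1, hF1, map_add]
        · rw [map_add, hF2, hF2, hF2, add_zero]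
      map_smul' := fun c x => by
        refine M.ext (fun i => ?_)
        rcases i with n | a
        · rw [map_smul, hF1, hF1, map_smul]; rfl
        · rw [map_smul, hF2, hF2, smul_zero] }
  refine ⟨L.mkContinuous 1 (fun x => by rw [one_mul]; exact hF3 x), fun k x => hF1 x k,
    fun a x => hF2 x a⟩

theorem abs (hM : S_MUL) : S_ABS := by
  classical
  intro P X _ _ _ M A N hA Q hQ
  -- the injection
  obtain ⟨τ, hτ, hτA⟩ : ∃ τ : ℕ ⊕ ℕ → ℕ, Function.Injective τ ∧ ∀ i, τ i ∈ A := by
    refine ⟨fun i => (hA.natEmbedding A (Encodable.encode i) : ℕ), ?_, fun i => ?_⟩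
    · intro i j h
      exact Encodable.encode_injective ((hA.natEmbedding A).injective (Subtype.ext h))
    · exact (hA.natEmbedding A (Encodable.encode i)).2
  -- the projection on `cR N`
  obtain ⟨D, -, hD⟩ := hM P X M (Sum.elim (fun _ => 0) (fun a => if N ≤ a then 1 else 0))
    (fun i => by rcases i with n | a <;> simp <;> split_ifs <;> simp)
  have hDl : ∀ n x, M.e' (Sum.inl n) (D x) = 0 := by intro n x; rw [hD]; simp
  have hDr : ∀ a x, N ≤ a → M.e' (Sum.inr a) (D x) = M.e' (Sum.inr a) x := by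
    intro a x h; rw [hD]; simp [h]
  have hDr' : ∀ a x, ¬ N ≤ a → M.e' (Sum.inr a) (D x) = 0 := by
    intro a x h; rw [hD]; simp [h]
  -- the map `R`
  let l : ℕ → (X →L[ℝ] ℝ) := Function.extend τ M.e' 0
  have hl1 : ∀ i, l (τ i) = M.e' i := fun i => hτ.extend_apply _ _ i
  have hl2 : ∀ k, (¬ ∃ i, τ i = k) → l k = 0 := fun k hk => Function.extend_apply' _ _ k hk
  obtain ⟨R0, hR1, hR2⟩ := opc M l
    (fun x => by
      rw [Metric.tendsto_nhds]
      intro ε hε
      have h1 := (Metric.tendsto_nhds.1 (coord0 M x)) ε hε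
      rw [Filter.eventually_cofinite] at h1 ⊢
      refine (h1.image τ).subset (fun k hk => ?_)
      by_cases h : ∃ i, τ i = k
      · obtain ⟨i, rfl⟩ := h
        refine ⟨i, ?_, rfl⟩
        rw [Set.mem_setOf_eq] at hk ⊢
        rw [hl1] at hk
        exact hk
      · exfalso
        rw [Set.mem_setOf_eq, hl2 k h] at hk
        apply hk
        simpa using hε)
    (fun k x => by
      by_cases h : ∃ i, τ i = k
      · obtain ⟨i, rfl⟩ := h
        rw [hl1]; exact coordB M i x
      · rw [hl2 k h]; simp)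
  -- the map `S`
  obtain ⟨S0, hS1, hS2⟩ := opc M (fun n => M.e' (Sum.inl (τ (Sum.inl n))))
    (fun x => by
      have hinj : Function.Injective (fun n : ℕ => (Sum.inl (τ (Sum.inl n)) : ℕ ⊕ ℕ)) := by
        intro n m h
        exact Sum.inl_injective (hτ (Sum.inl_injective h))
      exact (coord0 M x).comp hinj.tendsto_cofinite)
    (fun k x => coordB M _ x)
  let S1 : X →L[ℝ] X := ∑ a ∈ Finset.range N,
    (M.e' (Sum.inl (τ (Sum.inr a)))).smulRight (M.e (Sum.inr a))
  have hS3 : ∀ x, S1 x = ∑ a ∈ Finset.range N,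
      (M.e' (Sum.inl (τ (Sum.inr a))) x) • (M.e (Sum.inr a)) := by
    intro x
    simp only [S1, ContinuousLinearMap.sum_apply, ContinuousLinearMap.smulRight_apply]
  refine ⟨D + R0, D + S0 + S1, ?_⟩
  -- `Q R = R`
  have hQR : ∀ x, Q (D x + R0 x) = D x + R0 x := by
    intro x
    refine M.ext (fun i => ?_)
    by_cases hi : i ∈ cL A ∪ cR N
    · exact (hQ i _).1 hi
    · rw [(hQ i _).2 hi, map_add]
      rcases i with k | a
      · rw [hDl, hR1, zero_add]
        have : ¬ ∃ i, τ i = k := by
          rintro ⟨i, rfl⟩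
          exact hi (Or.inl ⟨τ i, hτA i, rfl⟩)
        rw [hl2 k this]; rfl
      · have : ¬ N ≤ a := fun h => hi (Or.inr ⟨a, h, rfl⟩)
        rw [hDr' a x this, hR2, zero_add]
  ext x
  show (D + S0 + S1) (Q (D x + R0 x)) = x
  rw [hQR]
  set w := D x + R0 x with hw
  have hwτ : ∀ i, M.e' (Sum.inl (τ i)) w = M.e' i x := by
    intro i
    rw [hw, map_add, hDl, hR1, zero_add, hl1]
  refine M.ext (fun i => ?_)
  show M.e' i (D w + S0 w + S1 w) = M.e' i x
  rw [map_add, map_add, hS3, map_sum]
  simp only [map_smul, M.bi, smul_eq_mul]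
  rcases i with n | a
  · rw [hDl, hS1, hwτ]; simp
  · rw [hS2]
    by_cases ha : N ≤ a
    · rw [hDr a w ha, hw, map_add, hDr a x ha, hR2, add_zero, add_zero, Finset.sum_eq_zero,
        add_zero]
      intro b hb
      rw [Finset.mem_range] at hb
      rw [if_neg, mul_zero]
      intro h
      have := Sum.inr_injective h
      omega
    · rw [hDr' a w ha, zero_add, zero_add, Finset.sum_eq_single a]
      · rw [if_pos rfl, mul_one, hwτ]
      · intro b _ hb
        rw [if_neg, mul_zero]
        intro h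
        exact hb (Sum.inr_injective h).symm
      · intro h
        exact absurd (Finset.mem_range.2 (by omega)) h

end Pool.Agent.W494.GU
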